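import Pool.Agent.U41.ED.Main

/-!
# The exact density of the common ordinary places

`K` is a number field, `G` its absolute Galois group. The `A i` are finitely many compatible systems over
`K`, the `ℓ`-adic realisations of pure motives with multiplication by number fields `(A i).E` (often `ℚ`):
for instance the `H¹` of elliptic curves and abelian surfaces, the `H²` of K3 surfaces and of other
varieties with `p_g = 1`, the `H¹` of abelian varieties with real multiplication.

It is not assumed that the monodromy groups are connected over `K`: `U` is a normal open subgroup of `G`
(the Galois group of a finite extension of `K`) whose image has a connected Zariski closure (for one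
prime `ℓ`) and which fixes the embeddings of the fields of multiplications; `G / U` is a finite group.

A place `v` of degree one outside a finite set is *ordinary* if for all `A i` and all embeddings `σ` of the
field of multiplications the Newton polygon of the `σ`-part of the Frobenius polynomial is the Hodge polygon.

Theorem.

1. One ordinary place is enough: let `v₁` be an ordinary place (for all `A i`) with a Frobenius element `γ₁`
   which satisfies the orbit condition (`AdmissibleAt`, for example if the defects are at most two). Then
   almost all places `v` which have a Frobenius element in the class `γ₁ U` are ordinary. So the ordinary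
   places have lower density at least `1 / [G : U]`.
2. Suppose that the identity satisfies the orbit condition, that is, that all defects are at most two, as for
   elliptic curves, abelian surfaces, K3 surfaces. Then the common ordinary places have a natural density,
   and it is the number of elements of `G / U` which are the classes of the Frobenius elements of *some* common
   ordinary place, divided by `[G : U]`. The class of the identity is one of them.

For one abelian surface this is the first part of the theorem of Sawin (2016); for K3 surfaces
Bogomolov-Zarhin (2009) have density one after a finite extension of `K`.

Proof: a polynomial relation between the entries of the representations which holds on a subset of positive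
Haar measure of a class of `G / U` holds on the whole class (a noetherian argument with the algebra of the
functions which are polynomial on the classes). At a place which is not ordinary the norm of a coefficient of
the Frobenius polynomial satisfies one of finitely many such relations. If the relation holds on the
whole class, then no place with Frobenius elements in this class is ordinary.
-/

set_option autoImplicit false

namespace Pool.Agent.Results.MP_17d720_ag.ExactDensity

open NumberField IsDedekindDomain Filter Topology
open Pool.Agent.W401.Cheb Pool.Agent.W528.Ord Pool.Agent.U41.ED

/-- **The exact density of the common ordinary places.** -/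
theorem result (K : Type) [Field K] [NumberField K] (ℓ : ℕ) [Fact ℓ.Prime] {ι : Type} [Fintype ι]
    (A : ι → MotSystem K ℓ) (χ : GK K →* (PadicAlgCl ℓ)ˣ) (S : ι → Finset ℕ)
    (U : Subgroup (GK K)) [U.Normal] (hU : IsOpen (U : Set (GK K)))
    (hA : ∀ i, IsSystem (A i) χ (S i) U) :
    (∀ (v₁ : HeightOneSpectrum (𝓞 K)) (γ₁ : GK K), AllOrdinaryAt A S v₁ → IsFrob v₁ γ₁ →
      (∀ i, AdmissibleAt (A i) γ₁) →
      Tendsto (ratio fun v : HeightOneSpectrum (𝓞 K) =>
        (∃ u ∈ U, IsFrob v (γ₁ * u)) ∧ ¬ AllOrdinaryAt A S v) atTop (𝓝 0) ∧
      1 / (Nat.card (GK K ⧸ U) : ℝ) ≤ lowerDensity (AllOrdinaryAt A S)) ∧
    ((∀ i, AdmissibleAt (A i) 1) →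
      Tendsto (ratio (AllOrdinaryAt A S)) atTop
        (𝓝 (((ordinaryClasses A S U).ncard : ℝ) / (Nat.card (GK K ⧸ U) : ℝ))) ∧
      (1 : GK K ⧸ U) ∈ ordinaryClasses A S U) :=
  ⟨fun _ _ hv hγ hadm => part_one hA hU hv hγ hadm, fun hadm => part_two hA hU hadm⟩

end Pool.Agent.Results.MP_17d720_ag.ExactDensity
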