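import Pool.Agent.U41.OP.Surf3

/-!
# The reductions of surfaces of geometric genus two have finite height

Let `X` be a smooth projective variety over a number field `K₀`, and let `V` be its cohomology group of
even degree `2 m` (for a surface: `m = 1` and `V = H²`), of dimension `n`.  The *excess* `e` of `V` is the
sum of `(m - a) h^{a, 2m - a}` over `a < m`; for a surface it is the geometric genus `p_g`.  The *Newton
excess* of the reduction of `X` at a place is the sum of `m - s` over the slopes `s < m` of the Newton
polygon of `V`; it is at most `e`, with equality if and only if the Newton polygon reaches the segment of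
slope `m` of the Hodge polygon.  For a surface the Newton excess is the dimension of the `p`-divisible part
of the formal Brauer group of the reduction, and it is zero if the reduction is supersingular.

Nothing is assumed on the variety, except `0 < e`.  The Galois representation `V` over `K₀`, or rather its
restriction to a finite extension `K` over which the `ℓ`-adic monodromy group is connected, for one prime
`ℓ`, is a motive `A` over `K` with rational coefficients (`Module.finrank ℚ A.E = 1`), with a symmetric
form (`IsOrthogonal`: cup product with a power of the class of a hyperplane section and the primitive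
decomposition; what is used is that for almost all places the crystalline cohomology is a lattice with a
perfect symmetric form, which Frobenius multiplies by `p ^ (2 m)`, and that the elementary divisors of
Frobenius are given by the Hodge numbers).

Theorem.  There is a set of places of `K₀` of lower density at least `1 / [K : K₀]` (of density one if
`K = K₀`) at which, for all primes `ℓ' ≠ p` and all embeddings `τ`:

1. the Newton excess is at least one, and *at least two if the excess `e` is even*;
2. if `h^{m - 1, m + 1} = 2` and all other Hodge numbers outside `h^{m, m}` vanish, in particular for *every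
   surface with geometric genus two*, there is an `h ≥ 1`, the height, such that the slopes are
   `m - 1`, `m - 1 / h` (`h` times), `m` (`n - 2 - 2 h` times), `m + 1 / h` (`h` times), `m + 1`,
   exactly as for K3 surfaces of finite height, up to the slopes `m - 1` and `m + 1`.

(The reduction is ordinary if and only if `h = 1`.  There are many more symmetric Newton polygons above the
Hodge polygon: those with Newton excess zero or one, and those with Newton excess two and without the
slope `m - 1`.)

The reason for the improvement from one to two is a parity: the order at `p` of the value at `-p ^ m` of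
the Frobenius polynomial is congruent to `n m - e` modulo two.
-/

set_option autoImplicit false

namespace Pool.Agent.Results.MP_17d720_ag.GeometricGenusTwo

open NumberField IsDedekindDomain Polynomial Filter Topology
open Pool.Agent.W401.Cheb Pool.Agent.W528.Ord
open Pool.Agent.U41.OP

/-- The `V ℓ'` are strictly compatible: at the places of degree one outside `T` the characteristic
polynomial of the geometric Frobenius element (the inverse of `γ`) is `F v`. -/
def StrictlyCompatible {K₀ : Type} [Field K₀] [NumberField K₀] (T : Finset ℕ) {r : ℕ}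
    (V : ∀ (ℓ' : ℕ) [Fact ℓ'.Prime], GK K₀ →* Matrix.GeneralLinearGroup (Fin r) ℚ_[ℓ'])
    (F : HeightOneSpectrum (𝓞 K₀) → Polynomial ℤ) : Prop :=
  ∀ (ℓ' : ℕ) [Fact ℓ'.Prime] (v₀ : HeightOneSpectrum (𝓞 K₀)), MultSystem.IsDeg1 T v₀ →
    Ideal.absNorm v₀.asIdeal ≠ ℓ' → ∀ γ : GK K₀, IsFrob v₀ γ →
      (V ℓ' γ⁻¹ : Matrix (Fin r) (Fin r) ℚ_[ℓ']).charpoly = (F v₀).map (Int.castRingHom ℚ_[ℓ'])

/-- `v₀` has degree one, and for every prime `ℓ'` different from the residue characteristic `p = N v₀` and
every embedding `τ` of the field of algebraic numbers the slopes of `V ℓ'` at `v₀` (the orders at `p` of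
the eigenvalues of Frobenius) are the elements of `Λ`, with multiplicity. -/
def HasSlopes {K₀ : Type} [Field K₀] [NumberField K₀] {r : ℕ}
    (V : ∀ (ℓ' : ℕ) [Fact ℓ'.Prime], GK K₀ →* Matrix.GeneralLinearGroup (Fin r) ℚ_[ℓ'])
    (v₀ : HeightOneSpectrum (𝓞 K₀)) (Λ : Multiset ℝ) : Prop :=
  ∃ (p : ℕ) (_ : Fact p.Prime), Ideal.absNorm v₀.asIdeal = p ∧
    ∀ (ℓ' : ℕ) [Fact ℓ'.Prime], p ≠ ℓ' → ∀ γ : GK K₀, IsFrob v₀ γ →
      ∀ τ : algebraicClosure ℚ (PadicAlgCl ℓ') →+* PadicAlgCl p,
        SlopesTau (V ℓ' γ⁻¹ : Matrix (Fin r) (Fin r) ℚ_[ℓ']) τ Λ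

theorem result (K₀ K : Type) [Field K₀] [NumberField K₀] [Field K] [NumberField K] [Algebra K₀ K]
    (ℓ : ℕ) [Fact ℓ.Prime]
    -- the motive over `K`, with rational coefficients, orthogonal, of weight `2 m`
    (A : MotSystem K ℓ) (χ : GK K →* (PadicAlgCl ℓ)ˣ) (S : Finset ℕ) (hA : A.IsMotive χ S)
    (hd : Module.finrank ℚ A.E = 1) (m : ℕ) (hO : IsOrthogonal A m S)
    (σ : A.E →+* AlgebraicClosure K) (he : 0 < excess A m σ)
    -- the cohomology group over `K₀`
    {r : ℕ} (V : ∀ (ℓ' : ℕ) [Fact ℓ'.Prime], GK K₀ →* Matrix.GeneralLinearGroup (Fin r) ℚ_[ℓ'])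
    (F : HeightOneSpectrum (𝓞 K₀) → ℤ[X]) (hV : StrictlyCompatible S V F)
    (hF : ∀ (v₀ : HeightOneSpectrum (𝓞 K₀)) (v : HeightOneSpectrum (𝓞 K)),
      v.asIdeal.comap (algebraMap (𝓞 K₀) (𝓞 K)) = v₀.asIdeal → MultSystem.IsDeg1 S v →
      (F v₀).map (Int.castRingHom (AlgebraicClosure K)) = A.poly v σ) :
    1 / (Module.finrank K₀ K : ℝ) ≤ lowerDensity (fun v₀ : HeightOneSpectrum (𝓞 K₀) =>
      ∃ Λ : Multiset ℝ, HasSlopes V v₀ Λ ∧
        -- the Newton excess
        1 ≤ newtonExcess m Λ ∧ (excess A m σ % 2 = 0 → 2 ≤ newtonExcess m Λ) ∧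
        -- geometric genus two
        (1 ≤ m ∧ (∃ b, A.h σ =
            List.replicate 2 (m - 1) ++ (List.replicate b m ++ List.replicate 2 (m + 1))) →
          HasHeight A.n m Λ)) := by
  apply lower_down_S hA hO σ he
  intro v v₀ hg h0
  have e := under_norm v hg.1.1 v₀ h0
  have hv₀ : MultSystem.IsDeg1 S v₀ := ⟨e ▸ hg.1.1, e ▸ hg.1.2⟩
  obtain ⟨p, hp⟩ : ∃ p, Ideal.absNorm v₀.asIdeal = p := ⟨_, rfl⟩
  have : Fact p.Prime := ⟨hp ▸ hv₀.1⟩
  refine ⟨slopesOf p (F v₀), ⟨p, inferInstance, hp, ?_⟩,
    slopesGood_at hA hd hO σ hg (e ▸ hp) (F v₀) (hF v₀ v h0 hg.1)⟩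
  intro ℓ' _ hne γ hγ τ
  exact slopesTau_of _ τ (F v₀) (hV ℓ' v₀ hv₀ (hp ▸ hne) γ hγ)

end Pool.Agent.Results.MP_17d720_ag.GeometricGenusTwo
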