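import Pool.Agent.U483.KO.Main
import Pool.Agent.U483.KO.Dens

/-!
# Places of good ordinary reduction and the Grothendieck ring of varieties

Let `K` be a number field. `𝓜` is the category of the pure motives over `K` for absolute Hodge cycles, `H` gives the
pieces `gr^W_w h^i_c(X)` of the cohomology with compact support, and `S` the slopes of Frobenius (Newton polygon) and
the Hodge-Tate weights (Hodge polygon) of the motives with crystalline `p`-adic realization at a place.
`ord v X` means that the smooth projective scheme `X` has good ordinary reduction at `v` (Bloch and Kato);
for almost all `v` it means that the Newton polygon of `h^i(X)` is the Hodge polygon for all `i` (Bloch and Kato). The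
structures `CompactCoh`, `IsMultiplicative`, `Slopes` and `IsOrdinaryReduction` list the known properties which are used.

* Let `F` be a filter of sets of places which contains the cofinite sets: for instance the sets of density one, or
  the sets which contain almost all (in the sense of density) of the places that are completely split in some finite extension of `K`.
  A smooth projective `X` is ordinary at the places of a member of `F` if and only if a multiple of its class is in the
  subring of `K_0(Var_K)` generated by the smooth projective varieties with this property, and by all
  varieties built from them.
* If `n [X] = n [X']` then `X` and `X'` have good ordinary reduction at the same places, with finitely many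
  exceptions. If `n [X]` is in the ring generated by the powers of one variety `Y` then the same is true for one inclusion, so
  that positive density for `Y` implies positive density for `X`.
* Elliptic curves, abelian surfaces (Ogus) and K3 surfaces (Bogomolov and Zarhin) are ordinary for the second
  filter, whose members have positive density (Chebotarev). So the places of good ordinary reduction have positive density
  for all smooth projective `X` such that a multiple of the class is in the subring of `K_0(Var_K)` generated by
  abelian surfaces, K3 surfaces, curves of genus at most two, ... and the varieties built from them.
-/

set_option autoImplicit false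

open CategoryTheory AlgebraicGeometry Filter Pool.Agent.Y116.UV Pool.Agent.U483.KM
  Pool.Agent.U483.GU Pool.Agent.U483.KP Pool.Agent.U483.KO

namespace Pool.Agent.Results.MP_17d720_ag.GrothendieckRing

universe w x

theorem result (K : Type) [Field K] [NumberField K] (𝓜 : Type w) [Category.{x} 𝓜] [Abelian 𝓜]
    [Linear ℚ 𝓜] [MonoidalCategory 𝓜] (H : CompactCoh.{w, x} K 𝓜) (L : 𝓜)
    (hH : IsMultiplicative H L) (S : Slopes.{w, x} 𝓜 (Places K)) (ord : Places K → Sch K → Prop)
    (hO : IsOrdinaryReduction H L S cofinite ord) :
    -- good ordinary reduction at the places of a member of a filter, in terms of a multiple of the class
    Criterion ord cofinite ∧
    -- positive density, if all members of the filter have positive density (for instance density one)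
    BigOrdinary ord cofinite PositiveDensity ∧
    (densityOne K ≤ cofinite ∧ ∀ T ∈ densityOne K, PositiveDensity T) ∧
    -- the ring generated by one `Y`
    OneScheme ord cofinite PositiveDensity ∧
    -- equal classes
    Invariance ord cofinite PositiveDensity := by
  obtain ⟨h1, h2, h3, h4⟩ := main hH hO PositiveDensity fun T T' h hT => hT.mono <| by
    refine (Filter.eventually_cofinite.1 h).subset fun v hv hc => hv.2 (hc hv.1)
  exact ⟨h1, h2, ⟨densityOne_le, fun T hT => positive_of_densityOne hT⟩, h3, h4⟩

end Pool.Agent.Results.MP_17d720_ag.GrothendieckRing
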