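import Pool.Agent.U213.OR.Main

/-!
# Ordinary reduction: from `ℚ` to number fields, and explicit affine schemes over `ℚ`

`S : Theories` consists of the weight quotients `gr^W_w H^n_c(X)` of the `p`-adic cohomology of the separated
schemes `X` of finite type over the number fields `K`, for all `p`, with their Newton and Hodge slopes at the
finite places of `K` (the fields of the structures are the properties which are used). `(S.T K).ord X` is the
set of places of `K` at which all Newton polygons of `X` are equal to the Hodge polygons; for a smooth
projective variety this is, up to finitely many places, the set of places of good ordinary reduction.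
`PosK M`: the set `M` of places has positive lower density. `AV K` is the class of the abelian varieties over
`K`, and `C K` is the class of the smooth projective varieties (or any classes with the properties
`IsClosed`, `IsProjClass`; Jacobians and curves on abelian varieties: `jac`, `curve`).

1. Abelian varieties (Serre's question). These are equivalent: (a) every abelian variety over `ℚ` is
  ordinary at a set of prime numbers of positive lower density; (b) for all totally real fields and all
  CM fields `K` and `L` every abelian variety over `K` is ordinary at a set of places of `K` of positive lower
  density, even among the places above prime numbers which split completely in `K` and `L`; (c) for every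
  abelian variety over any number field `K` the prime numbers such that it is ordinary at all places of `K`
  above them have positive lower density; (d) any finitely many affine hypersurfaces `F(x, y, z) = 1` over `ℚ`,
  `F` a trilinear form in three blocks of variables one of which has at most three variables, have
  common ordinary prime numbers of positive lower density.
2. Smooth projective varieties. The statements (a), (b), (c) for all smooth projective varieties and the
  following one are equivalent: (e) any finitely many affine schemes over `ℚ` given by systems of equations
  each of which is a sum of at most three monomials `x_i y_j` have common ordinary prime numbers of positive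
  lower density.
3. For every `d`: any finitely many smooth projective varieties over `ℚ` of dimension at most `d` have common
  ordinary prime numbers of positive lower density if and only if any finitely many hypersurfaces
  `F(x, y, z) = 1` over `ℚ`, `F` a trilinear form with a block of at most `d + 2` variables, have.

Proofs. The Newton polygon is on or above the Hodge polygon, so the objects which are ordinary at `v` are a
Serre class (`Poly`, `ordAt_iff`), and for every filter of sets of places the schemes whose ordinary places
are in the filter have the closure properties `Bnd`; the filter generated by the ordinary places of the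
explicit schemes gives (d), (e) and 3. From `ℚ` to `K`: Weil restriction, and products with abelian varieties
with complex multiplication by all CM types of a Galois CM field, which are ordinary only at the primes which
split completely (and finitely many others); `Dens` compares the densities. The geometric reductions of any
property with the closure properties `Bnd` are those of `Pool.Agent.Y116.UV`, `Pool.Agent.Z125.UN`,
`Pool.Agent.Q282.UZ`, `Pool.Agent.U738.BN`.
-/

set_option autoImplicit false

open CategoryTheory AlgebraicGeometry Pool.Agent.Y116.UV Pool.Agent.U213.OR

namespace Pool.Agent.Results.MP_17d720_ag.OrdinaryOverQ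

universe u v

theorem result (S : Theories.{u, v})
    -- abelian varieties
    {AV : ∀ (K : Type) [Field K] [NumberField K], Sch K → Prop} (hAV : S.IsClosed AV)
    -- smooth projective varieties
    {C : ∀ (K : Type) [Field K] [NumberField K], Sch K → Prop} (hC : S.IsClosed C)
    (hP : IsProjClass (S.T ℚ) (C ℚ))
    -- the Jacobian of a curve, and curves on an abelian variety
    (jac : ∀ X, C ℚ X → topologicalKrullDim X.left ≤ 1 →
      ∃ A, AV ℚ A ∧ (S.T ℚ).ord A ⊆ (S.T ℚ).ord X)
    (curve : ∀ A, AV ℚ A →
      ∃ X, C ℚ X ∧ topologicalKrullDim X.left ≤ 1 ∧ (S.T ℚ).ord X ⊆ (S.T ℚ).ord A) :
    -- 1. abelian varieties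
    List.TFAE [
      ∀ A, AV ℚ A → PosK ((S.T ℚ).ord A),
      S.AllCM AV,
      S.AllAbove AV,
      S.Common (IsTri 3)] ∧
    -- 2. smooth projective varieties
    List.TFAE [
      ∀ X, C ℚ X → PosK ((S.T ℚ).ord X),
      S.AllCM C,
      S.AllAbove C,
      S.Common IsSys] ∧
    -- 3. smooth projective varieties of dimension at most `d`
    ∀ d : ℕ, S.Common (fun X => C ℚ X ∧ topologicalKrullDim X.left ≤ d) ↔ S.Common (IsTri (d + 2)) := by
  have h1 := fields_iff S hAV
  have h2 := fields_iff S hC
  have h3 : S.Common (AV ℚ) ↔
      S.Common fun X => C ℚ X ∧ topologicalKrullDim X.left ≤ (1 : ℕ) := by
    constructor
    · refine common_mono S ?_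
      rintro Y ⟨hY, hd⟩
      obtain ⟨A, hA, hsub⟩ := jac Y hY (by exact_mod_cast hd)
      exact Filter.mem_of_superset (ord_mem_gen _ hA) hsub
    · refine common_mono S fun A hA => ?_
      obtain ⟨X, hX, hd, hsub⟩ := curve A hA
      exact Filter.mem_of_superset (ord_mem_gen _ ⟨hX, by exact_mod_cast hd⟩) hsub
  have h4 := h3.trans (forms_iff S hP 1)
  refine ⟨?_, ?_, forms_iff S hP⟩
  · tfae_have 1 ↔ 2 := h1.out 0 1
    tfae_have 1 ↔ 3 := h1.out 0 2
    tfae_have 1 ↔ 4 := (h1.out 0 3).trans h4
    tfae_finish
  · tfae_have 1 ↔ 2 := h2.out 0 1
    tfae_have 1 ↔ 3 := h2.out 0 2
    tfae_have 1 ↔ 4 := (h2.out 0 3).trans (systems_iff S hP)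
    tfae_finish

end Pool.Agent.Results.MP_17d720_ag.OrdinaryOverQ
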